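import Pool.Agent.Helper76.TC.Goals

/-! # TC, packet ME: facts on the median and the distance to the integers -/

set_option autoImplicit false

namespace Pool.Agent.Helper83.TC.ME

open Pool.Agent.Helper76.TC
open Pool.Agent.Helper50.CT (rv)

theorem fo_nn (t : ℝ) : 0 ≤ fo t := abs_nonneg _

theorem fo_half (t : ℝ) : fo t ≤ 1 / 2 := abs_sub_round t

theorem fo_int (k : ℤ) (t : ℝ) : fo ((k : ℝ) + t) = fo t := by
  unfold fo
  rw [round_intCast_add]
  push_cast
  congr 1
  ring

theorem fo_le (t : ℝ) (z : ℤ) : fo t ≤ |t - z| := round_le t z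

theorem fo_lip (s t : ℝ) : |fo s - fo t| ≤ |s - t| := by
  have h : ∀ s t : ℝ, fo s - fo t ≤ |s - t| := by
    intro s t
    have h1 := fo_le s (round t)
    have h2 : |s - (round t : ℝ)| ≤ |s - t| + |t - (round t : ℝ)| := abs_sub_le s t _
    have h3 : fo t = |t - (round t : ℝ)| := rfl
    linarith
  rw [abs_le]
  have h1 := h s t
  have h2 := h t s
  rw [abs_sub_comm t s] at h2
  constructor <;> linarith

theorem med_lip {a b c a' b' c' δ : ℝ} (ha : |a - a'| ≤ δ) (hb : |b - b'| ≤ δ)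
    (hc : |c - c'| ≤ δ) : |med a b c - med a' b' c'| ≤ δ := by
  unfold med
  refine (abs_max_sub_max_le_max _ _ _ _).trans (max_le ?_ ?_)
  · exact (abs_min_sub_min_le_max _ _ _ _).trans (max_le ha hb)
  · refine (abs_min_sub_min_le_max _ _ _ _).trans (max_le ?_ hc)
    exact (abs_max_sub_max_le_max _ _ _ _).trans (max_le ha hb)

theorem med_nn {a b c : ℝ} (ha : 0 ≤ a) (hb : 0 ≤ b) : 0 ≤ med a b c :=
  (le_min ha hb).trans (le_max_left _ _)

theorem med_le {a b c δ : ℝ} (ha : a ≤ δ) (hc : c ≤ δ) : med a b c ≤ δ :=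
  max_le ((min_le_left _ _).trans ha) ((min_le_right _ _).trans hc)

theorem fo_small {t : ℝ} (h0 : 0 ≤ t) (h1 : t ≤ 1 / 2) : fo t = t := by
  refine le_antisymm ?_ ?_
  · have h := fo_le t 0
    rw [Int.cast_zero, sub_zero, abs_of_nonneg h0] at h
    exact h
  · unfold fo
    obtain ⟨z, hz⟩ : ∃ z : ℤ, z = round t := ⟨_, rfl⟩
    rw [← hz]
    rcases le_or_gt z 0 with h | h
    · have h2 : (z : ℝ) ≤ 0 := by exact_mod_cast h
      exact le_trans (by linarith) (le_abs_self _)
    · have h2 : (1 : ℝ) ≤ z := by exact_mod_cast h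
      refine le_trans ?_ (neg_le_abs _)
      linarith

/-- ME -/
theorem t : S_ME := by
  intro m
  refine ⟨fun x => ⟨?_, ?_⟩, fun x y => ?_, fun k x => ?_, fun s h0 h1 => ?_⟩
  · unfold uu
    have := med_nn (c := fo (x 2)) (fo_nn (x 0)) (fo_nn (x 1))
    linarith
  · unfold uu
    have := med_le (b := fo (x 1)) (fo_half (x 0)) (fo_half (x 2))
    linarith
  · unfold uu
    have h : ∀ i, |fo (x i) - fo (y i)| ≤ ‖x - y‖ := by
      intro i
      refine (fo_lip _ _).trans ?_
      have h1 := norm_le_pi_norm (x - y) i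
      rwa [Pi.sub_apply, Real.norm_eq_abs] at h1
    have h2 := med_lip (h 0) (h 1) (h 2)
    rw [← mul_sub, abs_mul, abs_two]
    linarith
  · unfold uu
    simp only [Pi.add_apply, rv, fo_int]
  · refine ⟨fun _ => s / 2, ?_⟩
    unfold uu med
    rw [fo_small (by linarith) (by linarith)]
    simp only [min_self, max_self]
    ring

end Pool.Agent.Helper83.TC.ME
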